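import Pool.Agent.Helper50_CIG.Cover

/-!
Class R1 (helper3): level-transitive groups of automorphisms of rooted trees with small activity.
-/

set_option autoImplicit false

open scoped Pointwise

namespace Pool.Agent.Helper45CIG

open Pool.Agent.H50.CIG

variable {X : ℕ → Type} {G : Type} [Group G] [MulAction G (∀ i, X i)]

/-- The section of `g` at the vertex of level `m` on the ray `x` is trivial. -/
def TrivAt (g : G) (m : ℕ) (x : ∀ i, X i) : Prop :=
  ∀ y : ∀ i, X i, (∀ i < m, y i = x i) → ∀ i, m ≤ i → (g • y) i = y i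

/-- The vertices of level `m` at which `g` has a non-trivial section. -/
def Act (g : G) (m : ℕ) : Set (∀ i : Fin m, X i) :=
  {v | ∃ x : ∀ i, X i, (∀ i : Fin m, x i = v i) ∧ ¬ TrivAt g m x}

/-- The action respects the tree. -/
def Tree (X : ℕ → Type) (G : Type) [Group G] [MulAction G (∀ i, X i)] : Prop :=
  ∀ (g : G) (m : ℕ) (x y : ∀ i, X i), (∀ i < m, x i = y i) → ∀ i < m, (g • x) i = (g • y) i

lemma TrivAt.congr {g : G} {m : ℕ} {x y : ∀ i, X i} (h : TrivAt g m x)
    (hxy : ∀ i < m, x i = y i) : TrivAt g m y :=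
  fun z hz i hi => h z (fun j hj => (hz j hj).trans (hxy j hj).symm) i hi

lemma TrivAt.one (m : ℕ) (x : ∀ i, X i) : TrivAt (1 : G) m x := by
  intro y _ i _
  rw [one_smul]

lemma TrivAt.mul (ht : Tree X G) {g h : G} {m : ℕ} {x : ∀ i, X i} (hh : TrivAt h m x)
    (hg : TrivAt g m (h • x)) : TrivAt (g * h) m x := by
  intro y hy i hi
  rw [mul_smul, hg (h • y) (ht h m y x hy) i hi, hh y hy i hi]

lemma TrivAt.inv (ht : Tree X G) {g : G} {m : ℕ} {x : ∀ i, X i} (hg : TrivAt g m (g⁻¹ • x)) :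
    TrivAt g⁻¹ m x := by
  intro y hy i hi
  have h1 := hg (g⁻¹ • y) (ht g⁻¹ m y x hy) i hi
  rw [smul_inv_smul] at h1
  exact h1.symm

section count

variable [∀ i, Nonempty (X i)]

/-- a ray through the vertex `v` -/
noncomputable def ext {m : ℕ} (v : ∀ i : Fin m, X i) : ∀ i, X i :=
  fun i => if h : i < m then v ⟨i, h⟩ else Classical.arbitrary (X i)

lemma ext_apply {m : ℕ} (v : ∀ i : Fin m, X i) (i : Fin m) : ext v i = v i := by
  unfold ext
  rw [dif_pos i.2]

/-- the vertex of level `m` on a ray -/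
def pre (m : ℕ) (x : ∀ i, X i) : ∀ i : Fin m, X i := fun i => x i

lemma ext_pre (m : ℕ) (x : ∀ i, X i) : ∀ i < m, ext (pre m x) i = x i := by
  intro i hi
  exact ext_apply (pre m x) ⟨i, hi⟩

/-- the action on the vertices -/
noncomputable def vact (g : G) {m : ℕ} (v : ∀ i : Fin m, X i) : ∀ i : Fin m, X i :=
  pre m (g • ext v)

lemma vact_injective (ht : Tree X G) (g : G) (m : ℕ) :
    Function.Injective (vact g : (∀ i : Fin m, X i) → ∀ i : Fin m, X i) := by
  intro v w h
  have h1 : ∀ i < m, (g • ext v) i = (g • ext w) i := fun i hi => congrFun h ⟨i, hi⟩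
  have h2 := ht g⁻¹ m _ _ h1
  ext i
  have h3 := h2 i i.2
  rw [inv_smul_smul, inv_smul_smul, ext_apply, ext_apply] at h3
  exact h3

lemma notMem_act {g : G} {m : ℕ} {v : ∀ i : Fin m, X i} : v ∉ Act g m ↔ TrivAt g m (ext v) := by
  constructor
  · intro h
    by_contra h1
    exact h ⟨ext v, ext_apply v, h1⟩
  · rintro h ⟨x, hx, hn⟩
    refine hn (h.congr fun i hi => ?_)
    rw [ext_apply v ⟨i, hi⟩]
    exact (hx ⟨i, hi⟩).symm

lemma act_one (m : ℕ) : Act (1 : G) m = (∅ : Set (∀ i : Fin m, X i)) := by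
  rw [Set.eq_empty_iff_forall_notMem]
  intro v
  rw [notMem_act]
  exact TrivAt.one m _

lemma act_mul (ht : Tree X G) (g h : G) (m : ℕ) :
    (Act (g * h) m : Set (∀ i : Fin m, X i)) ⊆ Act h m ∪ vact h ⁻¹' Act g m := by
  intro v hv
  by_contra hn
  rw [Set.mem_union, not_or] at hn
  obtain ⟨h1, h2⟩ := hn
  rw [notMem_act] at h1
  have h2' : vact h v ∉ Act g m := h2
  rw [notMem_act] at h2'
  refine (notMem_act.2 ?_) hv
  exact TrivAt.mul ht h1 (h2'.congr fun i hi => ext_pre m _ i hi)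

lemma act_inv (ht : Tree X G) (g : G) (m : ℕ) :
    (Act g⁻¹ m : Set (∀ i : Fin m, X i)) ⊆ vact g⁻¹ ⁻¹' Act g m := by
  intro v hv
  by_contra hn
  have h2' : vact g⁻¹ v ∉ Act g m := hn
  rw [notMem_act] at h2'
  refine (notMem_act.2 ?_) hv
  exact TrivAt.inv ht (h2'.congr fun i hi => ext_pre m _ i hi)

variable [∀ i, Finite (X i)]

lemma ncard_preimage (ht : Tree X G) (g : G) (m : ℕ) (S : Set (∀ i : Fin m, X i)) :
    (vact g ⁻¹' S).ncard ≤ S.ncard := by
  have h1 := Set.ncard_image_of_injective (vact g ⁻¹' S) (vact_injective ht g m)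
  rw [← h1]
  exact Set.ncard_le_ncard (Set.image_preimage_subset _ _) (Set.toFinite S)

lemma ncard_act [DecidableEq G] (ht : Tree X G) (S : Finset G) (m a : ℕ)
    (ha : ∀ s ∈ S, (Act s m : Set (∀ i : Fin m, X i)).ncard ≤ a) (r : ℕ) :
    ∀ g ∈ (S ∪ S⁻¹ ∪ {1}) ^ r, (Act g m : Set (∀ i : Fin m, X i)).ncard ≤ r * a := by
  induction r with
  | zero =>
    intro g hg
    rw [pow_zero, Finset.mem_one] at hg
    rw [hg, act_one, Set.ncard_empty]
    exact Nat.zero_le _
  | succ r ih =>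
    intro g hg
    rw [pow_succ, Finset.mem_mul] at hg
    obtain ⟨g', hg', s, hs, rfl⟩ := hg
    have hs' : (Act s m : Set (∀ i : Fin m, X i)).ncard ≤ a := by
      rw [Finset.mem_union, Finset.mem_union, Finset.mem_singleton, Finset.mem_inv] at hs
      rcases hs with (hs | ⟨s', hs', rfl⟩) | rfl
      · exact ha s hs
      · exact (Set.ncard_le_ncard (act_inv ht s' m) (Set.toFinite _)).trans
          ((ncard_preimage ht _ m _).trans (ha s' hs'))
      · rw [act_one, Set.ncard_empty]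
        exact Nat.zero_le _
    calc (Act (g' * s) m : Set (∀ i : Fin m, X i)).ncard
        ≤ (Act s m ∪ vact s ⁻¹' Act g' m : Set (∀ i : Fin m, X i)).ncard :=
          Set.ncard_le_ncard (act_mul ht g' s m) (Set.toFinite _)
      _ ≤ (Act s m : Set (∀ i : Fin m, X i)).ncard + (vact s ⁻¹' Act g' m).ncard :=
          Set.ncard_union_le _ _
      _ ≤ a + r * a := Nat.add_le_add hs' ((ncard_preimage ht _ m _).trans (ih g' hg'))
      _ = (r + 1) * a := by ring

/-- the stabilizer of a vertex -/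
def stab (ht : Tree X G) (m : ℕ) (x : ∀ i, X i) : Subgroup G where
  carrier := {g | ∀ i < m, (g • x) i = x i}
  one_mem' := fun i _ => by rw [one_smul]
  mul_mem' := by
    intro a b ha hb i hi
    rw [mul_smul, ht a m _ _ hb i hi, ha i hi]
  inv_mem' := by
    intro a ha i hi
    have h1 := ht a⁻¹ m _ _ ha i hi
    rw [inv_smul_smul] at h1
    exact h1.symm

/-- the pointwise stabilizer of the subtree at a vertex -/
def fixat (G : Type) [Group G] [MulAction G (∀ i, X i)] (m : ℕ) (x : ∀ i, X i) : Subgroup G where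
  carrier := {g | ∀ y : ∀ i, X i, (∀ i < m, y i = x i) → g • y = y}
  one_mem' := fun y _ => one_smul G y
  mul_mem' := by
    intro a b ha hb y hy
    rw [mul_smul, hb y hy, ha y hy]
  inv_mem' := by
    intro a ha y hy
    rw [inv_smul_eq_iff, ha y hy]

omit [∀ i, Nonempty (X i)] in
lemma stab_finiteIndex (ht : Tree X G) (m : ℕ) (x : ∀ i, X i) : (stab ht m x).FiniteIndex := by
  apply finiteIndex_of_fun (α := ∀ i : Fin m, X i) _ fun g => pre m (g • x)
  intro a b hab i hi
  have h1 : ∀ i < m, (b • x) i = (a • x) i := fun i hi => (congrFun hab ⟨i, hi⟩).symm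
  have h2 := ht a⁻¹ m _ _ h1 i hi
  rw [inv_smul_smul] at h2
  rw [mul_smul]
  exact h2

/-- **Half of a ball has at most `|FC| N` elements.** -/
theorem card_triv_le [Infinite G] (hG : ¬ CI G) (ht : Tree X G)
    (hker : {g : G | ∀ x : ∀ i, X i, g • x = x}.Finite)
    (htr : ∀ (m : ℕ) (x y : ∀ i, X i), ∃ g : G, ∀ i < m, (g • x) i = y i)
    (m : ℕ) (x₀ : ∀ i, X i) (B : Finset G) (hB : ∀ g ∈ B, TrivAt g m x₀) :
    B.card ≤ Nat.card (fc G) * Nat.card (∀ i : Fin m, X i) := by
  classical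
  have := Fintype.ofFinite (∀ i : Fin m, X i)
  refine card_le_of_cover hG (ι := ∀ i : Fin m, X i) (fun v => stab ht m (ext v))
    (fun v => fixat G m (ext v)) (fun v => stab_finiteIndex ht m _) ?_ ?_ B _ ?_
  · intro v h hh k hk y hy
    have h0 : h⁻¹ ∈ stab ht m (ext v) := inv_mem hh
    have h1 : ∀ i < m, (h⁻¹ • y) i = (ext v) i := fun i hi =>
      (ht h⁻¹ m _ _ hy i hi).trans (h0 i hi)
    rw [mul_smul, mul_smul, hk _ h1, smul_inv_smul]
  · refine hker.subset fun g hg x => ?_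
    exact (Subgroup.mem_iInf.1 hg (pre m x)) x fun i hi => (ext_pre m x i hi).symm
  · intro v
    obtain ⟨c, hc⟩ := htr m (ext v) x₀
    let F : (∀ i : Fin m, X i) → G := fun w =>
      if h : ∃ g ∈ B, pre m (g • x₀) = w then h.choose else 1
    refine ⟨Finset.univ.image fun w => (F w, c), ?_, ?_⟩
    · refine Finset.card_image_le.trans ?_
      rw [Finset.card_univ, Nat.card_eq_fintype_card]
    · intro g hg
      have hex : ∃ g' ∈ B, pre m (g' • x₀) = pre m (g • x₀) := ⟨g, hg, rfl⟩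
      refine ⟨(F (pre m (g • x₀)), c), Finset.mem_image_of_mem _ (Finset.mem_univ _), ?_⟩
      have hF : F (pre m (g • x₀)) = hex.choose := dif_pos hex
      show c⁻¹ * ((F (pre m (g • x₀)))⁻¹ * g) * c ∈ fixat G m (ext v)
      rw [hF]
      obtain ⟨hgB, hpre⟩ := hex.choose_spec
      set g' := hex.choose
      intro y hy
      have h1 : ∀ i < m, (c • y) i = x₀ i := fun i hi =>
        (ht c m _ _ hy i hi).trans (hc i hi)
      have h2 : g • (c • y) = g' • (c • y) := by
        ext i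
        rcases lt_or_ge i m with hi | hi
        · have h3 := congrFun hpre ⟨i, hi⟩
          rw [ht g m _ _ h1 i hi, ht g' m _ _ h1 i hi]
          exact h3.symm
        · rw [hB g hg _ h1 i hi, hB g' hgB _ h1 i hi]
      rw [mul_smul, mul_smul, mul_smul, h2, inv_smul_smul, inv_smul_smul]

theorem activity [DecidableEq G] (ht : Tree X G)
    (hker : {g : G | ∀ x : ∀ i, X i, g • x = x}.Finite)
    (htr : ∀ (m : ℕ) (x y : ∀ i, X i), ∃ g : G, ∀ i < m, (g • x) i = y i) (S : Finset G)
    (hS : ∀ k : ℕ, ∃ r m a : ℕ, (∀ s ∈ S, (Act s m : Set (∀ i : Fin m, X i)).ncard ≤ a) ∧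
      2 * (r * a) ≤ Nat.card (∀ i : Fin m, X i) ∧
      k * Nat.card (∀ i : Fin m, X i) < ((S ∪ S⁻¹ ∪ {1}) ^ r).card) : CI G := by
  classical
  by_contra hG
  rcases finite_or_infinite G with hF | hI
  · obtain ⟨r, m, a, _, _, h3⟩ := hS (Nat.card G)
    have := Fintype.ofFinite G
    have h4 : ((S ∪ S⁻¹ ∪ {1}) ^ r).card ≤ Nat.card G := by
      rw [Nat.card_eq_fintype_card]
      exact Finset.card_le_univ _
    have h5 : 0 < Nat.card (∀ i : Fin m, X i) := Nat.card_pos
    nlinarith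
  obtain ⟨r, m, a, h1, h2, h3⟩ := hS (2 * Nat.card (fc G))
  have := Fintype.ofFinite (∀ i : Fin m, X i)
  obtain ⟨N, hN⟩ : ∃ N, N = Nat.card (∀ i : Fin m, X i) := ⟨_, rfl⟩
  obtain ⟨f, hf⟩ : ∃ f, f = Nat.card (fc G) := ⟨_, rfl⟩
  obtain ⟨B, hB⟩ : ∃ B, B = (S ∪ S⁻¹ ∪ {1}) ^ r := ⟨_, rfl⟩
  have hact := ncard_act ht S m a h1 r
  rw [← hB] at hact h3
  rw [← hN] at h2 h3
  rw [← hf] at h3
  -- double counting
  have hcount : ∑ g ∈ B, (Finset.univ.filter fun v : (∀ i : Fin m, X i) => TrivAt g m (ext v)).card =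
      ∑ v : (∀ i : Fin m, X i), (B.filter fun g => TrivAt g m (ext v)).card := by
    simp only [Finset.card_filter]
    exact Finset.sum_comm
  have hlow : ∀ g ∈ B, N ≤ 2 * (Finset.univ.filter fun v : (∀ i : Fin m, X i) => TrivAt g m (ext v)).card := by
    intro g hg
    have h5 := hact g hg
    have h6 : (Finset.univ.filter fun v : (∀ i : Fin m, X i) => ¬ TrivAt g m (ext v)).card ≤ r * a := by
      rw [← Set.ncard_coe_finset]
      refine le_trans (Set.ncard_le_ncard (fun v hv => ?_) (Set.toFinite _)) h5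
      rw [Finset.coe_filter] at hv
      by_contra hn
      exact hv.2 (notMem_act.1 hn)
    have h7 := Finset.card_filter_add_card_filter_not (s := (Finset.univ : Finset (∀ i : Fin m, X i)))
      (fun v : (∀ i : Fin m, X i) => TrivAt g m (ext v))
    rw [Finset.card_univ, ← Nat.card_eq_fintype_card, ← hN] at h7
    omega
  have hup : ∀ v : (∀ i : Fin m, X i), (B.filter fun g => TrivAt g m (ext v)).card ≤ f * N := by
    intro v
    rw [hf, hN]
    exact card_triv_le hG ht hker htr m (ext v) _ fun g hg => (Finset.mem_filter.1 hg).2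
  have h8 : B.card * N ≤ 2 * (N * (f * N)) := by
    calc B.card * N = ∑ g ∈ B, N := by rw [Finset.sum_const, smul_eq_mul]
      _ ≤ ∑ g ∈ B, 2 * (Finset.univ.filter fun v : (∀ i : Fin m, X i) => TrivAt g m (ext v)).card :=
          Finset.sum_le_sum hlow
      _ = 2 * ∑ v : (∀ i : Fin m, X i), (B.filter fun g => TrivAt g m (ext v)).card := by
          rw [← Finset.mul_sum, hcount]
      _ ≤ 2 * ∑ v : (∀ i : Fin m, X i), f * N :=
          Nat.mul_le_mul_left _ (Finset.sum_le_sum fun v _ => hup v)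
      _ = 2 * (N * (f * N)) := by
          rw [Finset.sum_const, smul_eq_mul, Finset.card_univ, ← Nat.card_eq_fintype_card, ← hN]
  have h9 : 0 < N := by rw [hN]; exact Nat.card_pos
  have h10 : B.card ≤ 2 * f * N := by
    by_contra hn
    push Not at hn
    nlinarith
  omega

end count

end Pool.Agent.Helper45CIG
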