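import Mathlib
import Pool.Agent.Helper45_CIG.Act

set_option autoImplicit false

open scoped Pointwise

namespace Pool.Agent.Results.MP_c4a8aa_al.Activity

/-- The section of `g` at the vertex of level `m` on the ray `x` is trivial: `g` changes no
coordinate from `m` on of the rays through this vertex. -/
def TrivialSection {X : ℕ → Type} {G : Type} [Group G] [MulAction G (∀ i, X i)] (g : G) (m : ℕ)
    (x : ∀ i, X i) : Prop :=
  ∀ y : ∀ i, X i, (∀ i < m, y i = x i) → ∀ i, m ≤ i → (g • y) i = y i

/-- The vertices of level `m` at which `g` has a non-trivial section. -/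
def active {X : ℕ → Type} {G : Type} [Group G] [MulAction G (∀ i, X i)] (g : G) (m : ℕ) :
    Set (∀ i : Fin m, X i) :=
  {v | ∃ x : ∀ i, X i, (∀ i : Fin m, x i = v i) ∧ ¬ TrivialSection g m x}

/-- **Small activity.** Let `G` act by automorphisms of the rooted tree with alphabets `X 0`,
`X 1`, ... (finite and not empty; the vertices of level `m` are the words of length `m`, the rays
are the infinite words), with finite kernel and transitively on every level. Let `S` be a finite
subset of `G` and suppose that for every `k` there are `r`, `m`, `a` such that every element of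
`S` has at most `a` non-trivial sections at level `m`, `2 r a` is at most the number `N` of
vertices of level `m`, and `(S ∪ S⁻¹ ∪ {1}) ^ r` has more than `k N` elements. Then `G` contains
two infinite subgroups which commute elementwise. -/
theorem result :
    ∀ (X : ℕ → Type) [∀ i, Finite (X i)] [∀ i, Nonempty (X i)] (G : Type) [Group G]
      [DecidableEq G] [MulAction G (∀ i, X i)],
      (∀ (g : G) (m : ℕ) (x y : ∀ i, X i), (∀ i < m, x i = y i) → ∀ i < m, (g • x) i = (g • y) i) →
      {g : G | ∀ x : ∀ i, X i, g • x = x}.Finite →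
      (∀ (m : ℕ) (x y : ∀ i, X i), ∃ g : G, ∀ i < m, (g • x) i = y i) →
      ∀ S : Finset G,
      (∀ k : ℕ, ∃ r m a : ℕ,
        (∀ s ∈ S, (active s m : Set (∀ i : Fin m, X i)).ncard ≤ a) ∧
        2 * (r * a) ≤ Nat.card (∀ i : Fin m, X i) ∧
        k * Nat.card (∀ i : Fin m, X i) < ((S ∪ S⁻¹ ∪ {1}) ^ r).card) →
      ∃ A B : Subgroup G, (A : Set G).Infinite ∧ (B : Set G).Infinite ∧
        ∀ a ∈ A, ∀ b ∈ B, a * b = b * a := by
  intro X _ _ G _ _ _ ht hker htr S hS
  exact Pool.Agent.Helper45CIG.activity ht hker htr S hS

end Pool.Agent.Results.MP_c4a8aa_al.Activity
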