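import Pool.Agent.Helper50_CIG.Basic

/-!
Minimal actions on profinite spaces in which every clopen set has finitely many translates:
without two infinite commuting subgroups, a generic point has a finite stabilizer.
-/

set_option autoImplicit false

namespace Pool.Agent.Helper45CIG

open Pool.Agent.H50.CIG Set

variable {G : Type*} [Group G] {X : Type*} [MulAction G X]

/-- the elements which fix every point of `U` -/
def fixer (G : Type*) [Group G] {X : Type*} [MulAction G X] (U : Set X) : Subgroup G where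
  carrier := {g | ∀ x ∈ U, g • x = x}
  one_mem' := fun x _ => one_smul G x
  mul_mem' := by
    intro a b ha hb x hx
    rw [mul_smul, hb x hx, ha x hx]
  inv_mem' := by
    intro a ha x hx
    rw [inv_smul_eq_iff, ha x hx]

lemma mem_fixer {U : Set X} {g : G} : g ∈ fixer G U ↔ ∀ x ∈ U, g • x = x := Iff.rfl

/-- the elements which map `U` into itself -/
def keeper (G : Type*) [Group G] {X : Type*} [MulAction G X] (U : Set X) : Subgroup G where
  carrier := {g | ∀ x, g • x ∈ U ↔ x ∈ U}
  one_mem' := fun x => by rw [one_smul]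
  mul_mem' := by
    intro a b ha hb x
    rw [mul_smul, ha, hb]
  inv_mem' := by
    intro a ha x
    rw [← ha (a⁻¹ • x), smul_inv_smul]

lemma mem_keeper {U : Set X} {g : G} : g ∈ keeper G U ↔ ∀ x, g • x ∈ U ↔ x ∈ U := Iff.rfl

/-- the translate of `U` by `g` -/
def tr (g : G) (U : Set X) : Set X := {x | g⁻¹ • x ∈ U}

lemma keeper_finiteIndex (U : Set X) (h : {V : Set X | ∃ g : G, V = tr g U}.Finite) :
    (keeper G U).FiniteIndex := by
  have : Finite {V : Set X | ∃ g : G, V = tr g U} := h
  apply finiteIndex_of_fun (α := {V : Set X | ∃ g : G, V = tr g U}) _ fun g => ⟨tr g U, g, rfl⟩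
  intro a b hab
  have h1 : tr a U = tr b U := congrArg Subtype.val hab
  intro x
  have h2 := Set.ext_iff.1 h1 (b • x)
  unfold tr at h2
  rw [Set.mem_ofPred_eq, Set.mem_ofPred_eq, inv_smul_smul, ← mul_smul] at h2
  exact h2

/-- **Topological freeness modulo the FC-centre.** -/
theorem fixer_le_fc [TopologicalSpace X] [CompactSpace X] [Infinite G] (hG : ¬ CI G)
    (hker : {g : G | ∀ x : X, g • x = x}.Finite)
    (hcont : ∀ g : G, Continuous fun x : X => g • x)
    (hmin : ∀ x : X, Dense {y : X | ∃ g : G, y = g • x}) (U : Set X) (hU : IsOpen U)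
    (hne : U.Nonempty) (hfin : {V : Set X | ∃ g : G, V = tr g U}.Finite) : fixer G U ≤ fc G := by
  -- finitely many translates of `U` cover the space
  obtain ⟨t, ht⟩ := isCompact_univ.elim_finite_subcover (fun g : G => tr g U)
    (fun g => hU.preimage (hcont g⁻¹)) (fun x _ => by
      obtain ⟨y, hy, g, rfl⟩ := (hmin x).inter_open_nonempty U hU hne
      rw [Set.mem_iUnion]
      exact ⟨g⁻¹, by show g⁻¹⁻¹ • x ∈ U; rw [inv_inv]; exact hy⟩)
  have htr : ∀ g h : G, tr h (tr g U) = tr (h * g) U := by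
    intro g h
    ext x
    show g⁻¹ • h⁻¹ • x ∈ U ↔ (h * g)⁻¹ • x ∈ U
    rw [mul_inv_rev, mul_smul]
  obtain ⟨i, hi⟩ := exists_le_fc hG (ι := t) (fun g => keeper G (tr (g : G) U))
    (fun g => fixer G (tr (g : G) U)) (fun g => keeper_finiteIndex _ (hfin.subset (by
      rintro V ⟨h, rfl⟩
      exact ⟨h * g, htr g h⟩))) (by
      intro g h hh k hk x hx
      rw [mul_smul, mul_smul]
      have h1 : h⁻¹ • x ∈ tr (g : G) U := by
        rw [← (mem_keeper.1 hh), smul_inv_smul]; exact hx
      rw [hk _ h1, smul_inv_smul]) (by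
      refine hker.subset fun k hk x => ?_
      obtain ⟨g, hg, hx⟩ := Set.mem_iUnion₂.1 (ht (Set.mem_univ x))
      exact (Subgroup.mem_iInf.1 hk ⟨g, hg⟩) x hx)
  -- conjugation
  intro k hk
  have h1 : (i : G) * k * (i : G)⁻¹ ∈ fc G := by
    apply hi
    intro x hx
    rw [mul_smul, mul_smul, hk _ hx, smul_inv_smul]
  rw [mem_fc] at h1 ⊢
  refine finiteIndex_of_fun (α := G ⧸ Subgroup.centralizer {(i : G) * k * (i : G)⁻¹}) _
    (fun z => ((i : G) * z * (i : G)⁻¹ : G)) fun a b hab => ?_
  rw [QuotientGroup.eq] at hab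
  rw [Subgroup.mem_centralizer_iff] at hab ⊢
  intro w hw
  rw [Set.mem_singleton_iff.1 hw]
  have h2 := hab _ rfl
  have h3 : (i : G) * (k * (a⁻¹ * b)) * (i : G)⁻¹ = (i : G) * (a⁻¹ * b * k) * (i : G)⁻¹ := by
    calc (i : G) * (k * (a⁻¹ * b)) * (i : G)⁻¹
        = (i : G) * k * (i : G)⁻¹ * (((i : G) * a * (i : G)⁻¹)⁻¹ * ((i : G) * b * (i : G)⁻¹)) := by
          group
      _ = ((i : G) * a * (i : G)⁻¹)⁻¹ * ((i : G) * b * (i : G)⁻¹) * ((i : G) * k * (i : G)⁻¹) := h2
      _ = (i : G) * (a⁻¹ * b * k) * (i : G)⁻¹ := by group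
  exact mul_left_cancel (mul_right_cancel h3)

/-- **Generic points have finite stabilizers.** -/
theorem ray [TopologicalSpace X] [CompactSpace X] [T2Space X] [TotallyDisconnectedSpace X]
    [Countable G] (hker : {g : G | ∀ x : X, g • x = x}.Finite)
    (hcont : ∀ g : G, Continuous fun x : X => g • x)
    (hmin : ∀ x : X, Dense {y : X | ∃ g : G, y = g • x})
    (hfin : ∀ U : Set X, IsClopen U → {V : Set X | ∃ g : G, V = tr g U}.Finite)
    (hst : ¬ IsMeagre {x : X | {g : G | g • x = x}.Infinite}) : CI G := by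
  by_contra hG
  apply hst
  rcases finite_or_infinite G with hF | hI
  · have : {x : X | {g : G | g • x = x}.Infinite} = ∅ := by
      rw [Set.eq_empty_iff_forall_notMem]
      intro x hx
      exact hx (Set.toFinite _)
    rw [this]
    exact IsMeagre.empty
  have hfc := fc_finite hG
  have hsub : {x : X | {g : G | g • x = x}.Infinite} ⊆
      ⋃ g : {g : G // g ∉ fc G}, {x : X | (g : G) • x = x} := by
    intro x hx
    obtain ⟨g, hg, hgf⟩ := Set.Infinite.exists_notMem_finite hx hfc
    exact Set.mem_iUnion.2 ⟨⟨g, hgf⟩, hg⟩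
  refine IsMeagre.mono hsub (isMeagre_iUnion fun g => ?_)
  have hcl : IsClosed {x : X | (g : G) • x = x} := isClosed_eq (hcont g) continuous_id
  refine IsNowhereDense.isMeagre ?_
  rw [hcl.isNowhereDense_iff]
  by_contra hne
  obtain ⟨x, hx⟩ := Set.nonempty_iff_ne_empty.2 hne
  obtain ⟨U, hU, hxU, hUs⟩ := compact_exists_isClopen_in_isOpen isOpen_interior hx
  exact g.2 (fixer_le_fc hG hker hcont hmin U hU.isOpen ⟨x, hxU⟩ (hfin U hU)
    (fun y hy => by
      have h3 : y ∈ {x : X | (g : G) • x = x} := interior_subset (hUs hy)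
      exact h3))

end Pool.Agent.Helper45CIG
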